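import Pool.Agent.W97.KE.Stm

set_option autoImplicit false

/-! Project KE (helper97): ideals of minors. -/

namespace Pool.Agent.W347.KE

open Pool.Agent.W97.KE

section
variable {S : Type} [CommRing S]

/-- the ideal of the determinants -/
def II {n : ℕ} (N : Submodule S (Fin n → S)) : Ideal S :=
  Ideal.span {d : S | ∃ A : Matrix (Fin n) (Fin n) S, (∀ i, A i ∈ N) ∧ d = A.det}

/-- the vectors of `N` with `j`-th entry zero -/
def sub {n : ℕ} (N : Submodule S (Fin (n + 1) → S)) (j : Fin (n + 1)) :
    Submodule S (Fin n → S) where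
  carrier := {w | (j.insertNth (0 : S) w : Fin (n + 1) → S) ∈ N}
  add_mem' := by
    intro a b ha hb
    have h := N.add_mem ha hb
    have e : (j.insertNth (0 : S) a : Fin (n + 1) → S) + j.insertNth (0 : S) b =
        j.insertNth (0 : S) (a + b) := by
      funext i
      refine Fin.succAboveCases j ?_ (fun k => ?_) i <;> simp
    rw [e] at h
    exact h
  zero_mem' := by
    have e : (j.insertNth (0 : S) (0 : Fin n → S) : Fin (n + 1) → S) = 0 := by
      funext i
      refine Fin.succAboveCases j ?_ (fun k => ?_) i <;> simp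
    show (j.insertNth (0 : S) (0 : Fin n → S) : Fin (n + 1) → S) ∈ N
    rw [e]
    exact N.zero_mem
  smul_mem' := by
    intro c a ha
    have h := N.smul_mem c ha
    have e : c • (j.insertNth (0 : S) a : Fin (n + 1) → S) = j.insertNth (0 : S) (c • a) := by
      funext i
      refine Fin.succAboveCases j ?_ (fun k => ?_) i <;> simp
    rw [e] at h
    exact h

theorem mem_sub {n : ℕ} {N : Submodule S (Fin (n + 1) → S)} {j : Fin (n + 1)} {w : Fin n → S} :
    w ∈ sub N j ↔ (j.insertNth (0 : S) w : Fin (n + 1) → S) ∈ N := Iff.rfl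

theorem smul_mem_sub {n : ℕ} {N : Submodule S (Fin (n + 1) → S)} {j : Fin (n + 1)} {c : S}
    (h : ∀ v : Fin (n + 1) → S, c • v ∈ N) (w : Fin n → S) : c • w ∈ sub N j := by
  rw [mem_sub]
  have e : c • (j.insertNth (0 : S) w : Fin (n + 1) → S) = j.insertNth (0 : S) (c • w) := by
    funext i
    refine Fin.succAboveCases j ?_ (fun k => ?_) i <;> simp
  rw [← e]
  exact h _

theorem step {n : ℕ} (N : Submodule S (Fin (n + 1) → S)) (j : Fin (n + 1)) (v : Fin (n + 1) → S)
    (hv : v ∈ N) (hj : v j = 1) : II N = II (sub N j) := by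
  refine le_antisymm ?_ ?_
  · refine Ideal.span_le.2 ?_
    rintro d ⟨A, hA, rfl⟩
    set c : Fin (n + 1) → S := fun l => if l = j then 0 else v l with hc
    set B : Matrix (Fin (n + 1)) (Fin (n + 1)) S := Matrix.of fun i l => A i l - c l * A i j with hB
    have hBj : ∀ i, B i j = A i j := by
      intro i
      simp [hB, hc]
    have hdet : A.det = B.det := by
      rw [← Matrix.det_transpose A, ← Matrix.det_transpose B]
      refine Matrix.det_eq_of_forall_row_eq_smul_add_const c j (by simp [hc]) fun l i => ?_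
      rw [Matrix.transpose_apply, Matrix.transpose_apply, Matrix.transpose_apply, hBj]
      simp only [hB, Matrix.of_apply]
      ring
    rw [hdet, Matrix.det_succ_column B j]
    show _ ∈ II (sub N j)
    refine Ideal.sum_mem _ fun i _ => Ideal.mul_mem_left _ _ (Ideal.subset_span ?_)
    refine ⟨_, fun k => ?_, rfl⟩
    rw [mem_sub]
    have e : (j.insertNth (0 : S) ((B.submatrix i.succAbove j.succAbove) k) : Fin (n + 1) → S) =
        A (i.succAbove k) - (A (i.succAbove k) j) • v := by
      funext l
      refine Fin.succAboveCases j ?_ (fun m => ?_) l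
      · simp [hj]
      · have hm : j.succAbove m ≠ j := Fin.succAbove_ne j m
        simp only [Fin.insertNth_apply_succAbove, Matrix.submatrix_apply, hB, Matrix.of_apply, hc,
          Pi.sub_apply, Pi.smul_apply, smul_eq_mul, if_neg hm]
        ring
    rw [e]
    exact N.sub_mem (hA _) (N.smul_mem _ hv)
  · refine Ideal.span_le.2 ?_
    rintro d ⟨A, hA, rfl⟩
    set B : Matrix (Fin (n + 1)) (Fin (n + 1)) S :=
      Matrix.of (Fin.cons v fun k => (j.insertNth (0 : S) (A k) : Fin (n + 1) → S)) with hB
    have hBN : ∀ i, B i ∈ N := by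
      intro i
      refine Fin.cases ?_ (fun k => ?_) i
      · exact hv
      · exact hA k
    have hdet : B.det = (-1) ^ (j : ℕ) * A.det := by
      rw [Matrix.det_succ_column B j, Fin.sum_univ_succ]
      have h0 : B 0 j = 1 := hj
      have h1 : ∀ k : Fin n, B k.succ j = 0 := by
        intro k
        simp [hB]
      have h2 : B.submatrix (Fin.succAbove 0) j.succAbove = A := by
        ext a b
        simp [hB]
      rw [Finset.sum_eq_zero (fun k _ => by rw [h1 k]; ring), h0, h2]
      simp
    have hm : (-1 : S) ^ (j : ℕ) * B.det ∈ II N :=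
      Ideal.mul_mem_left _ _ (Ideal.subset_span ⟨B, hBN, rfl⟩)
    rw [hdet, ← mul_assoc, ← mul_pow] at hm
    simpa using hm

theorem main_alg (π T : S) (h1 : π * π = 0) (h2 : π * T = 0) (h3 : T * T = 0) (h4 : π ≠ 0)
    (h5 : ∀ s, T ≠ s * π) (h6 : ∀ s : S, IsUnit s ∨ ∃ a b, s = a * π + b * T) :
    ∀ (n : ℕ) (N : Submodule S (Fin n → S)), (∀ v : Fin n → S, π • v ∈ N) →
    (∀ v : Fin n → S, T • v ∈ N) → II N ≠ Ideal.span {π} := by
  have hT : T ∉ Ideal.span {π} := by
    rw [Ideal.mem_span_singleton']
    rintro ⟨a, ha⟩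
    exact h5 a ha.symm
  intro n
  induction n with
  | zero =>
    intro N _ _ he
    apply hT
    rw [← he]
    have : (1 : S) ∈ II N := Ideal.subset_span ⟨fun i => Fin.elim0 i, fun i => Fin.elim0 i, by simp⟩
    simpa using Ideal.mul_mem_left _ T this
  | succ n ih =>
    intro N hπ hTN he
    by_cases hu : ∃ v ∈ N, ∃ j, IsUnit (v j)
    · obtain ⟨v, hv, j, hj⟩ := hu
      obtain ⟨c, hc⟩ := hj.exists_left_inv
      have hcv : c • v ∈ N := N.smul_mem c hv
      rw [step N j (c • v) hcv (by simpa using hc)] at he
      exact ih (sub N j) (fun w => smul_mem_sub hπ w) (fun w => smul_mem_sub hTN w) he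
    · push Not at hu
      have hm : ∀ v ∈ N, ∀ j, ∃ a b, v j = a * π + b * T := by
        intro v hv j
        rcases h6 (v j) with h | h
        · exact absurd h (hu v hv j)
        · exact h
      have hmm : ∀ s t : S, (∃ a b, s = a * π + b * T) → (∃ a b, t = a * π + b * T) → s * t = 0 := by
        rintro s t ⟨a, b, rfl⟩ ⟨c, d, rfl⟩
        linear_combination (a * c) * h1 + (a * d + b * c) * h2 + (b * d) * h3
      cases n with
      | zero =>
        apply hT
        rw [← he]
        refine Ideal.subset_span ⟨Matrix.of fun _ => T • fun _ => 1, fun i => hTN _, ?_⟩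
        simp
      | succ n =>
        have h0 : II N = ⊥ := by
          unfold II
          rw [Ideal.span_eq_bot]
          rintro d ⟨A, hA, rfl⟩
          rw [Matrix.det_apply]
          refine Finset.sum_eq_zero fun σ _ => ?_
          rw [Fin.prod_univ_succ, Fin.prod_univ_succ, ← mul_assoc,
            hmm _ _ (hm _ (hA _) _) (hm _ (hA _) _), zero_mul, smul_zero]
        rw [h0] at he
        apply h4
        have : π ∈ (⊥ : Ideal S) := by
          rw [he]
          exact Ideal.mem_span_singleton_self π
        simpa using this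

end

theorem s_alg : S_ALG := by
  intro S _ π T h1 h2 h3 h4 h5 h6 n N hπ hT
  exact main_alg π T h1 h2 h3 h4 h5 h6 n N hπ hT

end Pool.Agent.W347.KE
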